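import Mathlib
import Pool.Agent.TP975.LR.Lp2

/-!
Classes of sets with few traces on progressions: the exceptional polynomials of one long block.
-/

set_option autoImplicit false

namespace Pool.Agent.U708.VC

open Finset Filter
open Pool.Agent.H807R2.Dav
open Pool.Agent.TP975.RP
open Pool.Agent.TP975.LR

open Classical in
/-- the traces of the class `𝒢` on the finite set `P` -/
noncomputable def tr (𝒢 : Set (Set ℤ)) (P : Finset ℤ) : Finset (Finset ℤ) :=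
  P.powerset.filter (fun T => ∃ G ∈ 𝒢, ∀ n ∈ P, n ∈ T ↔ n ∈ G)

/-- the progression `r + q u`, `1 ≤ u ≤ y` -/
def prog (q r y : ℕ) : Finset ℤ := (Icc 1 y).image (fun u : ℕ => ((r + q * u : ℕ) : ℤ))

lemma prog_card (q r y : ℕ) : (prog q r y).card ≤ y := by
  unfold prog
  refine card_image_le.trans ?_
  rw [Nat.card_Icc, Nat.add_sub_cancel]

open Classical in
/-- the exceptional polynomials of one block -/
noncomputable def EvC (d H m B : ℕ) (𝒢 : Set (Set ℤ)) (G : (Fin (d + 1) → ℤ) → ℤ → ℝ) (R : ℝ) (q K j c k i : ℕ) :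
    Finset (Fin (d + 1) → ℤ) :=
  (tr 𝒢 (prog q (c + q * (j * 2 ^ K + i * 2 ^ k)) (2 ^ k))).biUnion (fun T =>
    (QQ d H).filter (fun a => R * ((q : ℝ) ^ 2 * ((j : ℝ) + 1) * ((2 : ℝ) ^ K) ^ (m + B)) < (∑ n ∈ T, G a n) ^ (2 * m)))

open Classical in
/-- the exceptional polynomials of one long block -/
noncomputable def EvD (d H m B : ℕ) (𝒢 : Set (Set ℤ)) (G : (Fin (d + 1) → ℤ) → ℤ → ℝ) (R LA : ℝ) (q K j : ℕ) :
    Finset (Fin (d + 1) → ℤ) :=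
  if ((q * ((j + 3) * 2 ^ K) : ℕ) : ℝ) ≤ LA then
    (range q).biUnion (fun c => (range (K + 2)).biUnion (fun k => (range (2 ^ (K + 1 - k))).biUnion (fun i =>
      EvC d H m B 𝒢 G R q K j c k i)))
  else ∅

/-- the moment bound for all subsets of an interval, in the form of an exceptional set -/
def Ev (d H m : ℕ) (G : (Fin (d + 1) → ℤ) → ℤ → ℝ) (C LA : ℝ) : Prop :=
  ∀ T : Finset ℤ, (∀ t ∈ T, 0 ≤ t ∧ (t : ℝ) ≤ LA) → ∀ R : ℝ, 0 < R →
    (((QQ d H).filter (fun a => R < (∑ n ∈ T, G a n) ^ (2 * m))).card : ℝ) ≤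
      (QQ d H).card * (C * (T.card : ℝ) ^ m / R)

lemma EvD_card (d H m B : ℕ) (𝒢 : Set (Set ℤ)) (G : (Fin (d + 1) → ℤ) → ℤ → ℝ) (R LA C C0 : ℝ) (q K j : ℕ) (hd : 1 ≤ m)
    (hq : 1 ≤ q) (hR : 0 < R) (hC : 0 ≤ C) (hC0 : 0 ≤ C0) (h1 : Ev d H m G C LA)
    (h0 : ∀ r y : ℕ, 1 ≤ y → ((tr 𝒢 (prog q r y)).card : ℝ) ≤ C0 * (y : ℝ) ^ B) :
    ((EvD d H m B 𝒢 G R LA q K j).card : ℝ) ≤
      (QQ d H).card * ((K + 2) * (C0 * C * 2 ^ (m + B)) / R * (1 / (q : ℝ)) * (1 / ((j + 1 : ℕ) : ℝ))) := by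
  classical
  have hQ0 : (0 : ℝ) ≤ (QQ d H).card := Nat.cast_nonneg _
  have h2K : (0 : ℝ) < 2 ^ K := by positivity
  have hj0 : (0 : ℝ) < (j : ℝ) + 1 := by positivity
  have hq0 : (0 : ℝ) < q := by exact_mod_cast hq
  unfold EvD
  split_ifs with hc
  swap
  · rw [card_empty, Nat.cast_zero]
    positivity
  have hR' : 0 < R * ((q : ℝ) ^ 2 * ((j : ℝ) + 1) * ((2 : ℝ) ^ K) ^ (m + B)) := by positivity
  set W : ℕ → ℝ := fun k => (QQ d H).card *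
    (C0 * C * ((2 : ℝ) ^ k) ^ (m + B) / (R * ((q : ℝ) ^ 2 * ((j : ℝ) + 1) * ((2 : ℝ) ^ K) ^ (m + B)))) with hW
  have hW0 : ∀ k, 0 ≤ W k := fun k => by positivity
  have hone : ∀ c ∈ range q, ∀ k ∈ range (K + 2), ∀ i ∈ range (2 ^ (K + 1 - k)),
      ((EvC d H m B 𝒢 G R q K j c k i).card : ℝ) ≤ W k := by
    intro c hcq k hk i hi
    rw [mem_range] at hk hi hcq
    have hbd : ((c + q * (j * 2 ^ K + i * 2 ^ k) + q * 2 ^ k : ℕ) : ℝ) ≤ LA := by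
      refine le_trans ?_ hc
      have h3 : (i + 1) * 2 ^ k ≤ 2 ^ (K + 1) := by
        calc (i + 1) * 2 ^ k ≤ 2 ^ (K + 1 - k) * 2 ^ k := Nat.mul_le_mul_right _ (by omega)
          _ = 2 ^ (K + 1) := by rw [← pow_add]; congr 1; omega
      have h4 : j * 2 ^ K + i * 2 ^ k + 1 * 2 ^ k ≤ (j + 2) * 2 ^ K := by
        have e1 : (i + 1) * 2 ^ k = i * 2 ^ k + 1 * 2 ^ k := by ring
        have e2 : (j + 2) * 2 ^ K = j * 2 ^ K + 2 ^ (K + 1) := by rw [pow_succ]; ring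
        omega
      have h5 : c + q * (j * 2 ^ K + i * 2 ^ k) + q * 2 ^ k ≤ q * ((j + 3) * 2 ^ K) := by
        have e1 : c + q * (j * 2 ^ K + i * 2 ^ k) + q * 2 ^ k = c + q * (j * 2 ^ K + i * 2 ^ k + 1 * 2 ^ k) := by ring
        have e2 : q * ((j + 3) * 2 ^ K) = q * ((j + 2) * 2 ^ K) + q * 2 ^ K := by ring
        have e3 : q * (j * 2 ^ K + i * 2 ^ k + 1 * 2 ^ k) ≤ q * ((j + 2) * 2 ^ K) := Nat.mul_le_mul_left q h4
        have e4 : q * 1 ≤ q * 2 ^ K := Nat.mul_le_mul_left q Nat.one_le_two_pow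
        omega
      exact_mod_cast h5
    unfold EvC
    set P := prog q (c + q * (j * 2 ^ K + i * 2 ^ k)) (2 ^ k) with hP
    have hPb : ∀ t ∈ P, 0 ≤ t ∧ (t : ℝ) ≤ LA := by
      intro t ht
      rw [hP] at ht
      unfold prog at ht
      obtain ⟨u, hu, rfl⟩ := mem_image.1 ht
      rw [mem_Icc] at hu
      refine ⟨Int.natCast_nonneg _, ?_⟩
      refine le_trans ?_ hbd
      have h7 : q * u ≤ q * 2 ^ k := Nat.mul_le_mul_left q hu.2
      have h8 : c + q * (j * 2 ^ K + i * 2 ^ k) + q * u ≤ c + q * (j * 2 ^ K + i * 2 ^ k) + q * 2 ^ k := by omega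
      exact_mod_cast h8
    refine (card_bU (tr 𝒢 P) _ (fun _ => (QQ d H).card * (C * ((2 : ℝ) ^ k) ^ m /
      (R * ((q : ℝ) ^ 2 * ((j : ℝ) + 1) * ((2 : ℝ) ^ K) ^ (m + B))))) (fun T hT => ?_)).trans ?_
    · unfold tr at hT
      rw [mem_filter, mem_powerset] at hT
      have h2 := h1 T (fun t ht => hPb t (hT.1 ht)) (R * ((q : ℝ) ^ 2 * ((j : ℝ) + 1) * ((2 : ℝ) ^ K) ^ (m + B))) hR'
      refine h2.trans ?_
      apply mul_le_mul_of_nonneg_left _ hQ0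
      apply div_le_div_of_nonneg_right _ hR'.le
      apply mul_le_mul_of_nonneg_left _ hC
      apply pow_le_pow_left₀ (Nat.cast_nonneg _)
      have h3 := (card_le_card hT.1).trans (prog_card q (c + q * (j * 2 ^ K + i * 2 ^ k)) (2 ^ k))
      exact_mod_cast h3
    · rw [sum_const, nsmul_eq_mul]
      have h3 := h0 (c + q * (j * 2 ^ K + i * 2 ^ k)) (2 ^ k) Nat.one_le_two_pow
      rw [← hP] at h3
      push_cast at h3
      calc ((tr 𝒢 P).card : ℝ) * ((QQ d H).card * (C * ((2 : ℝ) ^ k) ^ m /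
            (R * ((q : ℝ) ^ 2 * ((j : ℝ) + 1) * ((2 : ℝ) ^ K) ^ (m + B))))) ≤
          (C0 * ((2 : ℝ) ^ k) ^ B) * ((QQ d H).card * (C * ((2 : ℝ) ^ k) ^ m /
            (R * ((q : ℝ) ^ 2 * ((j : ℝ) + 1) * ((2 : ℝ) ^ K) ^ (m + B))))) :=
            mul_le_mul_of_nonneg_right h3 (by positivity)
        _ = _ := by
            rw [hW]
            simp only
            rw [pow_add ((2 : ℝ) ^ k) m B]
            ring
  refine (card_bU (range q) _ (fun _ => (QQ d H).card * ((K + 2) * (C0 * C * 2 ^ (m + B)) / R * (1 / (q : ℝ) ^ 2) *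
    (1 / ((j + 1 : ℕ) : ℝ)))) (fun c hcq => ?_)).trans ?_
  · refine (card_bU (range (K + 2)) _ (fun _ => (QQ d H).card * ((C0 * C * 2 ^ (m + B)) / R * (1 / (q : ℝ) ^ 2) *
      (1 / ((j + 1 : ℕ) : ℝ)))) (fun k hk => ?_)).trans ?_
    · refine (card_bU _ _ (fun _ => W k) (fun i hi => hone c hcq k hk i hi)).trans ?_
      rw [sum_const, card_range, nsmul_eq_mul]
      rw [mem_range] at hk
      push_cast
      have h4 : (2 : ℝ) ^ (K + 1 - k) * ((2 : ℝ) ^ k) ^ (m + B) ≤ ((2 : ℝ) ^ (K + 1)) ^ (m + B) := by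
        have h5 : ((2 : ℝ) ^ k) ^ (m + B) = 2 ^ k * ((2 : ℝ) ^ k) ^ (m + B - 1) := by
          rw [← pow_succ']; congr 1; omega
        have h6 : ((2 : ℝ) ^ (K + 1)) ^ (m + B) = 2 ^ (K + 1) * ((2 : ℝ) ^ (K + 1)) ^ (m + B - 1) := by
          rw [← pow_succ']; congr 1; omega
        rw [h5, h6, ← mul_assoc, ← pow_add]
        have h7 : K + 1 - k + k = K + 1 := by omega
        rw [h7]
        apply mul_le_mul_of_nonneg_left _ (by positivity)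
        apply pow_le_pow_left₀ (by positivity)
        exact pow_le_pow_right₀ (by norm_num) (by omega)
      rw [hW]
      simp only
      have e1 : (2 : ℝ) ^ (K + 1 - k) * ((QQ d H).card * (C0 * C * ((2 : ℝ) ^ k) ^ (m + B) /
          (R * ((q : ℝ) ^ 2 * ((j : ℝ) + 1) * ((2 : ℝ) ^ K) ^ (m + B))))) =
          (QQ d H).card * (C0 * C * ((2 : ℝ) ^ (K + 1 - k) * ((2 : ℝ) ^ k) ^ (m + B)) /
            (R * ((q : ℝ) ^ 2 * ((j : ℝ) + 1) * ((2 : ℝ) ^ K) ^ (m + B)))) := by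
        ring
      rw [e1]
      apply mul_le_mul_of_nonneg_left _ hQ0
      have e2 : C0 * C * 2 ^ (m + B) / R * (1 / (q : ℝ) ^ 2) * (1 / ((j : ℝ) + 1)) =
          (C0 * C * ((2 : ℝ) ^ (K + 1)) ^ (m + B)) / (R * ((q : ℝ) ^ 2 * ((j : ℝ) + 1) * ((2 : ℝ) ^ K) ^ (m + B))) := by
        have e3 : ((2 : ℝ) ^ (K + 1)) ^ (m + B) = 2 ^ (m + B) * ((2 : ℝ) ^ K) ^ (m + B) := by
          rw [pow_succ, mul_pow]
          ring
        rw [e3]
        field_simp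
      rw [e2]
      apply div_le_div_of_nonneg_right _ hR'.le
      exact mul_le_mul_of_nonneg_left h4 (by positivity)
    · rw [sum_const, card_range, nsmul_eq_mul]
      apply le_of_eq
      push_cast
      ring
  · rw [sum_const, card_range, nsmul_eq_mul]
    apply le_of_eq
    field_simp

open Classical in
/-- the sum over the members of `S` in a progression -/
noncomputable def cut {d : ℕ} (S : Set ℤ) (G : (Fin (d + 1) → ℤ) → ℤ → ℝ) (a : Fin (d + 1) → ℤ) (n : ℤ) : ℝ :=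
  if n ∈ S then G a n else 0

/-- a polynomial outside of the exceptional set -/
lemma good_segC (d H m B : ℕ) (𝒢 : Set (Set ℤ)) (S : Set ℤ) (hS : S ∈ 𝒢) (G : (Fin (d + 1) → ℤ) → ℤ → ℝ) (R LA : ℝ)
    (q K j c : ℕ) (hd : 1 ≤ m) (hq : 1 ≤ q) (hR : 0 < R) (a : Fin (d + 1) → ℤ)
    (ha : a ∈ QQ d H) (hLA : ((q * ((j + 3) * 2 ^ K) : ℕ) : ℝ) ≤ LA) (hbad : a ∉ EvD d H m B 𝒢 G R LA q K j)
    (M N : ℕ) (hc : c < q) (hM : j * 2 ^ K ≤ M) (hM2 : M < (j + 1) * 2 ^ K) (hN : N ≤ 2 ^ K) :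
    (∑ n ∈ Ioc M (M + N), cut S G a ((c + q * n : ℕ) : ℤ)) ^ (2 * m) ≤
      (2 * (K + 2)) ^ (2 * m) * (R * ((q : ℝ) ^ 2 * ((j : ℝ) + 1) * ((2 : ℝ) ^ K) ^ (m + B))) := by
  classical
  have hq0 : (0 : ℝ) < q := by exact_mod_cast hq
  have hR' : 0 < R * ((q : ℝ) ^ 2 * ((j : ℝ) + 1) * ((2 : ℝ) ^ K) ^ (m + B)) := by positivity
  set R' : ℝ := R * ((q : ℝ) ^ 2 * ((j : ℝ) + 1) * ((2 : ℝ) ^ K) ^ (m + B)) with hRd
  set ρ : ℝ := R' ^ (((2 * m : ℕ) : ℝ)⁻¹) with hρ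
  have hρ0 : 0 < ρ := by positivity
  have hρd : ρ ^ (2 * m) = R' := Real.rpow_inv_natCast_pow hR'.le (by omega)
  have h1 : ∀ k, k < K + 2 → ∀ i, i < 2 ^ (K + 1 - k) →
      |∑ u ∈ Icc 1 (2 ^ k), cut S G a (((c + q * (j * 2 ^ K + i * 2 ^ k)) + q * u : ℕ) : ℤ)| ≤ ρ := by
    intro k hk i hi
    set r' := c + q * (j * 2 ^ K + i * 2 ^ k) with hr'
    set P := prog q r' (2 ^ k) with hP
    set T := P.filter (fun n => n ∈ S) with hT
    have hTm : T ∈ tr 𝒢 P := by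
      unfold tr
      rw [mem_filter, mem_powerset]
      refine ⟨filter_subset _ _, S, hS, fun n hn => ?_⟩
      rw [hT, mem_filter]
      exact ⟨fun h => h.2, fun h => ⟨hn, h⟩⟩
    have hinj' : Set.InjOn (fun u : ℕ => ((r' + q * u : ℕ) : ℤ)) ((Icc 1 (2 ^ k) : Finset ℕ) : Set ℕ) := by
      intro u _ u' _ h
      have h1 : ((r' + q * u : ℕ) : ℤ) = ((r' + q * u' : ℕ) : ℤ) := h
      have h2 : r' + q * u = r' + q * u' := Int.ofNat_inj.1 h1
      exact Nat.eq_of_mul_eq_mul_left (by omega) (by omega : q * u = q * u')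
    have hsum : ∑ u ∈ Icc 1 (2 ^ k), cut S G a ((r' + q * u : ℕ) : ℤ) = ∑ n ∈ T, G a n := by
      rw [hT, sum_filter, hP]
      unfold prog
      rw [sum_image hinj']
      rfl
    rw [hsum]
    by_contra hcon
    push Not at hcon
    apply hbad
    unfold EvD
    rw [if_pos hLA, mem_biUnion]
    refine ⟨c, mem_range.2 hc, ?_⟩
    rw [mem_biUnion]
    refine ⟨k, mem_range.2 hk, ?_⟩
    rw [mem_biUnion]
    refine ⟨i, mem_range.2 hi, ?_⟩
    unfold EvC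
    rw [mem_biUnion]
    refine ⟨T, hTm, ?_⟩
    rw [mem_filter]
    refine ⟨ha, ?_⟩
    rw [← hRd, ← hρd, ← (even_two_mul m).pow_abs (∑ n ∈ T, G a n)]
    exact pow_lt_pow_left₀ hcon hρ0.le (by omega)
  set m0 : ℕ := j * 2 ^ K with hm0
  set x : ℕ → ℂ := fun u => ((cut S G a ((c + q * (m0 + u) : ℕ) : ℤ) : ℝ) : ℂ) with hx
  have hblock : ∀ k ≤ K + 1, ∀ i, (i + 1) * 2 ^ k ≤ 2 ^ (K + 1) →
      ‖∑ u ∈ Ioc (i * 2 ^ k) ((i + 1) * 2 ^ k), x u‖ ≤ ρ := by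
    intro k hk i hi
    have hi2 : i < 2 ^ (K + 1 - k) := by
      have e : 2 ^ (K + 1) = 2 ^ (K + 1 - k) * 2 ^ k := by rw [← pow_add]; congr 1; omega
      rw [e] at hi
      have := Nat.le_of_mul_le_mul_right hi (by positivity)
      omega
    have e0 : ∑ u ∈ Ioc (i * 2 ^ k) ((i + 1) * 2 ^ k), x u = ∑ u ∈ Icc 1 (2 ^ k), x (i * 2 ^ k + u) := by
      have e1 : (i + 1) * 2 ^ k = i * 2 ^ k + 2 ^ k := by ring
      rw [e1]
      have e2 : Ioc (i * 2 ^ k) (i * 2 ^ k + 2 ^ k) = (Ioc 0 (2 ^ k)).image (fun u => i * 2 ^ k + u) := by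
        rw [image_add_left_Ioc, add_zero]
      rw [e2, sum_image (by intro u _ u' _ h; simpa using h)]
      rfl
    have e1 : ∑ u ∈ Icc 1 (2 ^ k), x (i * 2 ^ k + u) =
        ((∑ u ∈ Icc 1 (2 ^ k), cut S G a (((c + q * (j * 2 ^ K + i * 2 ^ k)) + q * u : ℕ) : ℤ) : ℝ) : ℂ) := by
      rw [Complex.ofReal_sum]
      refine sum_congr rfl fun u _ => ?_
      rw [hx]
      have e9 : c + q * (m0 + (i * 2 ^ k + u)) = c + q * (j * 2 ^ K + i * 2 ^ k) + q * u := by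
        rw [hm0]; ring
      show ((cut S G a ((c + q * (m0 + (i * 2 ^ k + u)) : ℕ) : ℤ) : ℝ) : ℂ) = _
      rw [e9]
    rw [e0, e1, Complex.norm_real, Real.norm_eq_abs]
    exact h1 k (by omega) i hi2
  have hpre : ∀ t ≤ 2 ^ (K + 1), ‖∑ u ∈ Icc 1 t, x u‖ ≤ (K + 2) * ρ := by
    intro t ht
    have h3 := dyad x (K + 1) ρ hρ0.le hblock (K + 1) le_rfl 0 (by simp) t ht
    have e : Ioc (0 * 2 ^ (K + 1)) (0 * 2 ^ (K + 1) + t) = Icc 1 t := by
      rw [zero_mul, zero_add]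
      rfl
    rw [e] at h3
    refine h3.trans (le_of_eq ?_)
    push_cast
    ring
  have hK1 : (j + 1) * 2 ^ K = m0 + 2 ^ K := by rw [hm0]; ring
  have hZ2 : 2 ^ (K + 1) = 2 ^ K + 2 ^ K := by rw [pow_succ]; ring
  obtain ⟨u0, hu0⟩ : ∃ u0, M = m0 + u0 := ⟨M - m0, by omega⟩
  have hu0K : u0 < 2 ^ K := by omega
  have e1 : ((∑ n ∈ Ioc M (M + N), cut S G a ((c + q * n : ℕ) : ℤ) : ℝ) : ℂ) = ∑ u ∈ Ioc u0 (u0 + N), x u := by
    have e2 : Ioc M (M + N) = (Ioc u0 (u0 + N)).image (fun u => m0 + u) := by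
      rw [image_add_left_Ioc, hu0, add_assoc]
    rw [e2, sum_image (by intro u _ u' _ h; simpa using h)]
    push_cast
    rfl
  have e2 : ∑ u ∈ Ioc u0 (u0 + N), x u = ∑ u ∈ Icc 1 (u0 + N), x u - ∑ u ∈ Icc 1 u0, x u := by
    have h5 : ∑ u ∈ Icc 1 (u0 + N), x u = ∑ u ∈ Icc 1 u0, x u + ∑ u ∈ Ioc u0 (u0 + N), x u := by
      have : ∀ m, Icc 1 m = Ioc 0 m := fun m => rfl
      rw [this, this, sum_Ioc_consecutive _ (by omega) (by omega)]
    rw [h5]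
    ring
  have hfin : |∑ n ∈ Ioc M (M + N), cut S G a ((c + q * n : ℕ) : ℤ)| ≤ (2 * (K + 2)) * ρ := by
    rw [← Real.norm_eq_abs, ← Complex.norm_real, e1, e2]
    refine (norm_sub_le _ _).trans ?_
    have := hpre (u0 + N) (by omega)
    have := hpre u0 (by omega)
    linarith
  calc (∑ n ∈ Ioc M (M + N), cut S G a ((c + q * n : ℕ) : ℤ)) ^ (2 * m) =
      |∑ n ∈ Ioc M (M + N), cut S G a ((c + q * n : ℕ) : ℤ)| ^ (2 * m) := ((even_two_mul m).pow_abs _).symm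
    _ ≤ ((2 * (K + 2)) * ρ) ^ (2 * m) := pow_le_pow_left₀ (abs_nonneg _) hfin _
    _ = _ := by rw [mul_pow, hρd]

end Pool.Agent.U708.VC
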