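import Mathlib
import Pool.Agent.U708.VC.Cls

/-!
Classes of sets with few traces on progressions: from one block to all segments of all progressions.
-/

set_option autoImplicit false

namespace Pool.Agent.U708.VC

open Finset Filter
open Pool.Agent.H807R2.Dav
open Pool.Agent.TP975.RP
open Pool.Agent.TP975.LR

/-- from one segment to all segments -/
theorem all_segC (m A B : ℕ) (hd : 1 ≤ m) (C : ℝ) (hC : 1 ≤ C) (C0 : ℝ) (hC0 : 1 ≤ C0) (ε : ℝ) (hε : 0 < ε) :
    ∃ H0 : ℕ, ∀ H : ℕ, H0 ≤ H →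
    ∀ (d : ℕ) (G : (Fin (d + 1) → ℤ) → ℤ → ℝ), Ev d H m G C (Real.log H ^ (A + 1)) →
    ∀ (𝒢 : Set (Set ℤ)) (Q : Set ℕ), (∀ q ∈ Q, ∀ r y : ℕ, 1 ≤ y → ((tr 𝒢 (prog q r y)).card : ℝ) ≤ C0 * (y : ℝ) ^ B) →
    ∃ Bad ⊆ QQ d H, (Bad.card : ℝ) ≤ (QQ d H).card / Real.log H ^ (ε / 8) ∧
    ∀ a ∈ QQ d H, a ∉ Bad → ∀ S ∈ 𝒢, ∀ q ∈ Q, ∀ r N : ℕ, 1 ≤ q → 1 ≤ N → ((r + q * N : ℕ) : ℝ) ≤ Real.log H ^ A →
    (∑ u ∈ Icc 1 N, cut S G a ((r + q * u : ℕ) : ℤ)) ^ (2 * m) ≤
      (q : ℝ) * ((r + q * N : ℕ) : ℝ) * (N : ℝ) ^ (m + B - 1) * Real.log H ^ ε := by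
  classical
  have hd0 : (0 : ℝ) < m := by exact_mod_cast hd
  have hev : ∀ᶠ H : ℕ in atTop, (2 * (A : ℝ) + 3) * (1 + Real.log (Real.log H)) ≤ Real.log H ^ (ε / 16) ∧
      (2 * (2 * (A : ℝ) + 3)) * (1 + Real.log (Real.log H)) ≤ Real.log H ^ (ε / (8 * m)) ∧
      2 * (C0 * C) * 2 ^ (m + B) ≤ Real.log H ^ (ε / 16) ∧ 6 ≤ Real.log H := by
    filter_upwards [ev_loglog (ε / 16) (by positivity) (2 * (A : ℝ) + 3),
      ev_loglog (ε / (8 * m)) (by positivity) (2 * (2 * (A : ℝ) + 3)),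
      ev_rpow (ε / 16) (by positivity) (2 * (C0 * C) * 2 ^ (m + B)), ev_log 6] with H a2 a3 a4 a5
    exact ⟨a2, a3, a4, a5⟩
  obtain ⟨H0, hH0⟩ := eventually_atTop.1 hev
  refine ⟨H0, fun H hH d G h2 𝒢 Q hQc => ?_⟩
  obtain ⟨a2, a3, a4, a5⟩ := hH0 H hH
  set L := Real.log H with hL
  have hL0 : 0 < L := by linarith
  have hL1 : 1 ≤ L := by linarith
  set LL := Real.log L with hLL
  have hLL0 : 0 ≤ LL := Real.log_nonneg hL1
  set R := L ^ (ε / 2) with hR
  have hR0 : 0 < R := by positivity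
  set LA := L ^ A with hLA
  have hLA1 : 1 ≤ LA := one_le_pow₀ hL1
  have hLAs : L ^ (A + 1) = LA * L := pow_succ _ _
  set Q0 := ⌊LA⌋₊ with hQ0
  have hQ01 : 1 ≤ Q0 := Nat.le_floor (by simpa using hLA1)
  have hQ0r : (Q0 : ℝ) ≤ LA := Nat.floor_le (by linarith)
  set K0 := Nat.log 2 Q0 + 1 with hK0
  have hlogQ : Real.log Q0 ≤ A * LL := by
    have := Real.log_le_log (by exact_mod_cast hQ01) hQ0r
    rwa [hLA, Real.log_pow] at this
  have hA0 : (0 : ℝ) ≤ A := Nat.cast_nonneg _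
  have hK0b : (K0 : ℝ) + 2 ≤ (2 * A + 3) * (1 + LL) := by
    have h3 : ((2 : ℕ) : ℝ) ^ (Nat.log 2 Q0) ≤ Q0 := by exact_mod_cast Nat.pow_log_le_self 2 (by omega)
    have h4 := Real.log_le_log (by positivity) h3
    rw [Real.log_pow] at h4
    have h5 := Real.log_two_gt_d9
    push_cast at h4
    have h6 : (0 : ℝ) ≤ (Nat.log 2 Q0 : ℕ) := Nat.cast_nonneg _
    rw [hK0]
    push_cast
    nlinarith
  have hK0pos : (0 : ℝ) ≤ K0 := Nat.cast_nonneg _
  have hhar : ∑ j ∈ Icc 1 (Q0 + 1), 1 / (j : ℝ) ≤ (2 * A + 3) * (1 + LL) := by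
    refine (sum_inv_le _).trans ?_
    have h5 : ((Q0 + 1 : ℕ) : ℝ) ≤ 2 * LA := by push_cast; linarith
    have h6 := Real.log_le_log (by positivity) h5
    rw [Real.log_mul (by norm_num) (by positivity), hLA, Real.log_pow, ← hLL] at h6
    have h7 := Real.log_two_lt_d9
    nlinarith
  set Bad := (range (K0 + 1)).biUnion (fun K => (Icc 1 (Q0 + 1)).biUnion (fun q => (range (Q0 + 1)).biUnion
    (fun j => if q ∈ Q then EvD d H m B 𝒢 G R (L ^ (A + 1)) q K j else ∅))) with hBad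
  have hCC : 1 ≤ C0 * C := one_le_mul_of_one_le_of_one_le hC0 hC
  have hLe : 1 ≤ L ^ (ε / 16) := Real.one_le_rpow hL1 (by positivity)
  refine ⟨Bad, ?_, ?_, ?_⟩
  · intro a ha
    rw [hBad, mem_biUnion] at ha
    obtain ⟨K, _, ha⟩ := ha
    rw [mem_biUnion] at ha
    obtain ⟨q, _, ha⟩ := ha
    rw [mem_biUnion] at ha
    obtain ⟨j, _, ha⟩ := ha
    unfold EvD at ha
    split_ifs at ha
    · rw [mem_biUnion] at ha
      obtain ⟨c, _, ha⟩ := ha
      rw [mem_biUnion] at ha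
      obtain ⟨k, _, ha⟩ := ha
      rw [mem_biUnion] at ha
      obtain ⟨i, _, ha⟩ := ha
      unfold EvC at ha
      rw [mem_biUnion] at ha
      obtain ⟨T, _, ha⟩ := ha
      exact (mem_filter.1 ha).1
    · exact absurd ha (notMem_empty _)
    · exact absurd ha (notMem_empty _)
  · have hQc0 : (0 : ℝ) ≤ (QQ d H).card := Nat.cast_nonneg _
    set W : ℝ := (K0 + 2) * (C0 * C * 2 ^ (m + B)) / R with hW
    have hW0 : 0 ≤ W := by positivity
    set T : ℝ := (2 * A + 3) * (1 + LL) with hT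
    have hT0 : 0 ≤ T := by positivity
    have h3 : (Bad.card : ℝ) ≤ ∑ _K ∈ range (K0 + 1), (QQ d H).card * (W * (T * T)) := by
      rw [hBad]
      refine card_bU _ _ _ (fun K hK => ?_)
      rw [mem_range] at hK
      refine (card_bU (Icc 1 (Q0 + 1)) _ (fun q => ((QQ d H).card * (W * T)) * (1 / (q : ℝ))) (fun q hq => ?_)).trans ?_
      · rw [mem_Icc] at hq
        refine (card_bU (range (Q0 + 1)) _ (fun j => ((QQ d H).card * W * (1 / (q : ℝ))) * (1 / ((j + 1 : ℕ) : ℝ))) (fun j _ => ?_)).trans ?_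
        · have e0 : ((if q ∈ Q then EvD d H m B 𝒢 G R (L ^ (A + 1)) q K j else ∅ : Finset (Fin (d + 1) → ℤ)).card : ℝ) ≤
              (QQ d H).card * ((K + 2) * (C0 * C * 2 ^ (m + B)) / R * (1 / (q : ℝ)) * (1 / ((j + 1 : ℕ) : ℝ))) := by
            split_ifs with hqQ'
            · exact EvD_card d H m B 𝒢 G R (L ^ (A + 1)) C C0 q K j hd hq.1 hR0 (by linarith) (by linarith) h2 (hQc q hqQ')
            · rw [card_empty, Nat.cast_zero]
              positivity
          refine e0.trans ?_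
          have e1 : ((QQ d H).card : ℝ) * W * (1 / (q : ℝ)) * (1 / ((j + 1 : ℕ) : ℝ)) =
              (QQ d H).card * (W * (1 / (q : ℝ)) * (1 / ((j + 1 : ℕ) : ℝ))) := by ring
          rw [e1]
          apply mul_le_mul_of_nonneg_left _ hQc0
          apply mul_le_mul_of_nonneg_right _ (by positivity)
          apply mul_le_mul_of_nonneg_right _ (by positivity)
          rw [hW]
          apply div_le_div_of_nonneg_right _ hR0.le
          apply mul_le_mul_of_nonneg_right _ (by positivity)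
          have : (K : ℝ) ≤ K0 := by exact_mod_cast (by omega : K ≤ K0)
          linarith
        · rw [← mul_sum]
          have e1 : ∑ j ∈ range (Q0 + 1), 1 / ((j + 1 : ℕ) : ℝ) = ∑ j ∈ Icc 1 (Q0 + 1), 1 / (j : ℝ) := by
            rw [range_eq_Ico, sum_Ico_add' (fun j : ℕ => 1 / (j : ℝ)) 0 (Q0 + 1) 1]
            rfl
          rw [e1]
          calc (QQ d H).card * W * (1 / (q : ℝ)) * ∑ j ∈ Icc 1 (Q0 + 1), 1 / (j : ℝ) ≤
              (QQ d H).card * W * (1 / (q : ℝ)) * T := mul_le_mul_of_nonneg_left hhar (by positivity)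
            _ = _ := by ring
      · rw [← mul_sum]
        calc (QQ d H).card * (W * T) * ∑ q ∈ Icc 1 (Q0 + 1), 1 / (q : ℝ) ≤ (QQ d H).card * (W * T) * T :=
              mul_le_mul_of_nonneg_left hhar (by positivity)
          _ = _ := by ring
    refine h3.trans ?_
    rw [sum_const, card_range, nsmul_eq_mul]
    have h5 : ((K0 + 1 : ℕ) : ℝ) ≤ T := by push_cast; linarith
    have e0 : ((K0 + 1 : ℕ) : ℝ) * ((QQ d H).card * (W * (T * T))) = (QQ d H).card * (((K0 + 1 : ℕ) : ℝ) * (W * (T * T))) := by ring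
    rw [e0, div_eq_mul_one_div ((QQ d H).card : ℝ)]
    apply mul_le_mul_of_nonneg_left _ hQc0
    have e1 : L ^ (ε / 16) * L ^ (ε / 16) * L ^ (ε / 16) * L ^ (ε / 16) * L ^ (ε / 16) * L ^ (ε / 8) ≤ R := by
      rw [hR, ← Real.rpow_add hL0, ← Real.rpow_add hL0, ← Real.rpow_add hL0, ← Real.rpow_add hL0, ← Real.rpow_add hL0]
      apply Real.rpow_le_rpow_of_exponent_le hL1
      linarith
    have hp : 0 < L ^ (ε / 8) := by positivity
    rw [le_div_iff₀ hp]
    have h6 : (K0 : ℝ) + 2 ≤ L ^ (ε / 16) := hK0b.trans a2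
    have h7 : C0 * C * 2 ^ (m + B) ≤ L ^ (ε / 16) := by
      refine le_trans ?_ a4
      have : 0 ≤ C0 * C * 2 ^ (m + B) := by positivity
      linarith
    calc ((K0 + 1 : ℕ) : ℝ) * (W * (T * T)) * L ^ (ε / 8) =
        (((K0 + 1 : ℕ) : ℝ) * ((K0 + 2) * (C0 * C * 2 ^ (m + B))) * (T * T) * L ^ (ε / 8)) / R := by rw [hW]; ring
      _ ≤ (L ^ (ε / 16) * (L ^ (ε / 16) * L ^ (ε / 16)) * (L ^ (ε / 16) * L ^ (ε / 16)) * L ^ (ε / 8)) / R := by
          apply div_le_div_of_nonneg_right _ hR0.le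
          apply mul_le_mul_of_nonneg_right _ hp.le
          apply mul_le_mul _ (mul_le_mul a2 a2 hT0 (by positivity)) (by positivity) (by positivity)
          apply mul_le_mul (h5.trans a2) (mul_le_mul h6 h7 (by positivity) (by positivity)) (by positivity) (by positivity)
      _ ≤ R / R := by
          apply div_le_div_of_nonneg_right _ hR0.le
          refine le_trans (le_of_eq ?_) e1
          ring
      _ = 1 := div_self hR0.ne'
  · intro a ha hbad S hS q hqS r N hq hN hX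
    set M := r / q with hM
    set c := r % q with hc
    have hcq : c < q := Nat.mod_lt _ (by omega)
    have hrc : c + q * M = r := by rw [hM, hc]; exact Nat.mod_add_div r q
    set K := Nat.log 2 N + 1 with hK
    have hNr : (1 : ℝ) ≤ N := by exact_mod_cast hN
    have hqr : (1 : ℝ) ≤ q := by exact_mod_cast hq
    have hXQ : r + q * N ≤ Q0 := Nat.le_floor hX
    have hqMN : q * (M + N) ≤ r + q * N := by
      have : q * (M + N) = q * M + q * N := by ring
      omega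
    have hNQ : N ≤ Q0 := by nlinarith
    have hKK : K ≤ K0 := by
      rw [hK, hK0]
      have := Nat.log_mono_right (b := 2) hNQ
      omega
    have k1 : N < 2 ^ K := Nat.lt_pow_succ_log_self (by norm_num) N
    have k2 : 2 ^ K ≤ 2 * N := by
      rw [hK, pow_succ, mul_comm]
      exact Nat.mul_le_mul_left 2 (Nat.pow_log_le_self 2 (by omega))
    have h2K : 0 < 2 ^ K := by positivity
    set j := M / 2 ^ K with hj
    have hj1 := Nat.div_add_mod M (2 ^ K)
    have hj2 := Nat.mod_lt M h2K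
    rw [← hj] at hj1
    have hj3 : j * 2 ^ K ≤ M := Nat.div_mul_le_self _ _
    have hj4 : M < (j + 1) * 2 ^ K := by
      have : (j + 1) * 2 ^ K = 2 ^ K * j + 2 ^ K := by ring
      omega
    have hMr : M ≤ r := Nat.div_le_self _ _
    have hjQ : j ≤ Q0 := (Nat.div_le_self _ _).trans (by omega)
    have hqQ : q ≤ Q0 := by nlinarith
    have hcond : ((q * ((j + 3) * 2 ^ K) : ℕ) : ℝ) ≤ L ^ (A + 1) := by
      have h3 : (j + 3) * 2 ^ K ≤ 6 * (M + N) := by
        have : (j + 3) * 2 ^ K = j * 2 ^ K + 3 * 2 ^ K := by ring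
        omega
      have h4 : q * ((j + 3) * 2 ^ K) ≤ 6 * (r + q * N) := by
        calc q * ((j + 3) * 2 ^ K) ≤ q * (6 * (M + N)) := Nat.mul_le_mul_left q h3
          _ = 6 * (q * (M + N)) := by ring
          _ ≤ _ := Nat.mul_le_mul_left 6 hqMN
      have h5 : ((q * ((j + 3) * 2 ^ K) : ℕ) : ℝ) ≤ ((6 * (r + q * N) : ℕ) : ℝ) := by exact_mod_cast h4
      refine h5.trans ?_
      rw [hLAs]
      have h6 : ((6 * (r + q * N) : ℕ) : ℝ) = 6 * ((r + q * N : ℕ) : ℝ) := by push_cast; ring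
      rw [h6]
      nlinarith
    have hb : a ∉ EvD d H m B 𝒢 G R (L ^ (A + 1)) q K j := by
      intro hc
      apply hbad
      rw [hBad, mem_biUnion]
      refine ⟨K, mem_range.2 (by omega), ?_⟩
      rw [mem_biUnion]
      refine ⟨q, mem_Icc.2 ⟨hq, by omega⟩, ?_⟩
      rw [mem_biUnion]
      exact ⟨j, mem_range.2 (by omega), by rw [if_pos hqS]; exact hc⟩
    have key := good_segC d H m B 𝒢 S hS G R (L ^ (A + 1)) q K j c hd hq hR0 a ha hcond hb M N hcq hj3 hj4 k1.le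
    have e0 : ∑ u ∈ Icc 1 N, cut S G a ((r + q * u : ℕ) : ℤ) = ∑ n ∈ Ioc M (M + N), cut S G a ((c + q * n : ℕ) : ℤ) := by
      refine sum_nbij' (fun n => M + n) (fun m => m - M) ?_ ?_ ?_ ?_ ?_
      · intro n hn; rw [mem_Icc] at hn; rw [mem_Ioc]; omega
      · intro m hm; rw [mem_Ioc] at hm; rw [mem_Icc]; omega
      · intro n _; show M + n - M = n; omega
      · intro m hm; rw [mem_Ioc] at hm; show M + (m - M) = m; omega
      · intro n _
        have e2 : c + q * (M + n) = r + q * n := by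
          rw [mul_add, ← add_assoc, hrc]
        rw [e2]
    rw [e0]
    refine key.trans ?_
    -- the numerical part
    have f1 : (2 * ((K : ℝ) + 2)) ^ (2 * m) ≤ L ^ (ε / 4) := by
      have h3 : 2 * ((K : ℝ) + 2) ≤ L ^ (ε / (8 * m)) := by
        refine le_trans ?_ a3
        have h4 : (K : ℝ) ≤ K0 := by exact_mod_cast hKK
        have h5 : (K : ℝ) + 2 ≤ (2 * A + 3) * (1 + LL) := by linarith
        calc 2 * ((K : ℝ) + 2) ≤ 2 * ((2 * A + 3) * (1 + LL)) :=
              mul_le_mul_of_nonneg_left h5 (by positivity)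
          _ = _ := by ring
      calc (2 * ((K : ℝ) + 2)) ^ (2 * m) ≤ (L ^ (ε / (8 * m))) ^ (2 * m) :=
            pow_le_pow_left₀ (by positivity) h3 _
        _ = L ^ (ε / 4) := by
            rw [← Real.rpow_natCast, ← Real.rpow_mul hL0.le]
            congr 1
            push_cast
            field_simp
            norm_num
    have f2 : ((q : ℝ) ^ 2 * ((j : ℝ) + 1) * ((2 : ℝ) ^ K) ^ (m + B)) ≤
        2 ^ (m + B) * ((q : ℝ) * ((r + q * N : ℕ) : ℝ) * (N : ℝ) ^ (m + B - 1)) := by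
      have h3 : (q : ℝ) * (((j : ℝ) + 1) * 2 ^ K) ≤ 2 * ((r + q * N : ℕ) : ℝ) := by
        have h4 : (j + 1) * 2 ^ K ≤ 2 * (M + N) := by
          have : (j + 1) * 2 ^ K = j * 2 ^ K + 2 ^ K := by ring
          omega
        have h5 : q * ((j + 1) * 2 ^ K) ≤ 2 * (r + q * N) := by
          calc q * ((j + 1) * 2 ^ K) ≤ q * (2 * (M + N)) := Nat.mul_le_mul_left q h4
            _ = 2 * (q * (M + N)) := by ring
            _ ≤ _ := Nat.mul_le_mul_left 2 hqMN
        exact_mod_cast h5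
      have h4 : (2 : ℝ) ^ K ≤ 2 * N := by exact_mod_cast k2
      have h5 : ((2 : ℝ) ^ K) ^ (m + B) = 2 ^ K * ((2 : ℝ) ^ K) ^ (m + B - 1) := by
        rw [← pow_succ']; congr 1; omega
      have h6 : (2 : ℝ) ^ (m + B) = 2 * 2 ^ (m + B - 1) := by
        rw [← pow_succ']; congr 1; omega
      rw [h5, h6]
      calc (q : ℝ) ^ 2 * ((j : ℝ) + 1) * (2 ^ K * ((2 : ℝ) ^ K) ^ (m + B - 1)) =
          q * ((q : ℝ) * (((j : ℝ) + 1) * 2 ^ K)) * ((2 : ℝ) ^ K) ^ (m + B - 1) := by ring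
        _ ≤ q * (2 * ((r + q * N : ℕ) : ℝ)) * (2 * (N : ℝ)) ^ (m + B - 1) := by
            apply mul_le_mul _ (pow_le_pow_left₀ (by positivity) h4 _) (by positivity) (by positivity)
            exact mul_le_mul_of_nonneg_left h3 (by positivity)
        _ = _ := by rw [mul_pow]; ring
    have f3 : (2 : ℝ) ^ (m + B) ≤ L ^ (ε / 4) := by
      have h3 : (2 : ℝ) ^ (m + B) ≤ 2 * (C0 * C) * 2 ^ (m + B) := le_mul_of_one_le_left (by positivity) (by linarith)
      exact h3.trans (a4.trans (Real.rpow_le_rpow_of_exponent_le hL1 (by linarith)))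
    have e4 : L ^ ε = L ^ (ε / 4) * (L ^ (ε / 2) * L ^ (ε / 4)) := by
      rw [← Real.rpow_add hL0, ← Real.rpow_add hL0]
      congr 1
      ring
    rw [e4]
    calc (2 * ((K : ℝ) + 2)) ^ (2 * m) * (R * ((q : ℝ) ^ 2 * ((j : ℝ) + 1) * ((2 : ℝ) ^ K) ^ (m + B))) ≤
        L ^ (ε / 4) * (R * (L ^ (ε / 4) * ((q : ℝ) * ((r + q * N : ℕ) : ℝ) * (N : ℝ) ^ (m + B - 1)))) := by
          apply mul_le_mul f1 _ (by positivity) (by positivity)
          apply mul_le_mul_of_nonneg_left _ hR0.le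
          exact f2.trans (mul_le_mul_of_nonneg_right f3 (by positivity))
      _ = _ := by rw [hR]; ring

end Pool.Agent.U708.VC
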