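import Mathlib
import Pool.Agent.U708.VC.All

/-!
Classes of sets with few traces on progressions: products with one factor `F` and arbitrary other factors.
-/

set_option autoImplicit false

namespace Pool.Agent.U708.VC

open Finset Filter
open Pool.Agent.H807R2.Dav
open Pool.Agent.TP975.RP
open Pool.Agent.TP975.LR

/-- the moment bound for arbitrary sets of arguments, as an exceptional set -/
theorem event_T (F : ℤ → ℝ) (hF : WinB F) (hFb : ∀ v, |F v| ≤ 1) (d A m k : ℕ) (hmk : m * (k + 1) ≤ d) (hm : 1 ≤ m) :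
    ∃ C : ℝ, 1 ≤ C ∧ ∃ H0 : ℕ, ∀ H : ℕ, H0 ≤ H → ∀ g : Fin k → ℤ → ℤ → ℝ, (∀ j n v, |g j n v| ≤ 1) →
    ∀ h : Fin (k + 1) → ℤ, (∀ j : Fin k, h j.succ ≠ h 0) → (∀ j, |(h j : ℝ)| ≤ Real.log H ^ A) →
    Ev d H m (GE F g h) C (Real.log H ^ A) := by
  classical
  obtain ⟨C, hC, H0, h0⟩ := khin F hF hFb d A m k hmk
  refine ⟨C, hC, H0, fun H hH g hg h hh hhb T hTb R hR => ?_⟩
  have hQpos : (0 : ℝ) < (QQ d H).card := by rw [card_QQ]; positivity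
  rcases T.eq_empty_or_nonempty with rfl | hTne
  · have h1 : (QQ d H).filter (fun a => R < (∑ n ∈ (∅ : Finset ℤ), GE F g h a n) ^ (2 * m)) = ∅ := by
      apply filter_eq_empty_iff.2
      intro a _
      rw [sum_empty, zero_pow (by omega)]
      linarith
    rw [h1, card_empty, Nat.cast_zero]
    positivity
  have h2 := h0 H hH g hg h hh hhb T hTne (fun t ht => by
    rw [abs_of_nonneg (by exact_mod_cast (hTb t ht).1)]
    exact (hTb t ht).2)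
  set S := (QQ d H).filter (fun a => R < (∑ n ∈ T, GE F g h a n) ^ (2 * m)) with hS
  have e1 : ((QQ d H).card : ℝ) * EQ d H (fun a => (∑ n ∈ T, GE F g h a n) ^ (2 * m)) =
      ∑ a ∈ QQ d H, (∑ n ∈ T, GE F g h a n) ^ (2 * m) := by
    unfold EQ
    field_simp
  have h3 : (S.card : ℝ) * R ≤ (QQ d H).card * EQ d H (fun a => (∑ n ∈ T, GE F g h a n) ^ (2 * m)) := by
    rw [e1]
    calc (S.card : ℝ) * R = ∑ _a ∈ S, R := by rw [sum_const, nsmul_eq_mul]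
      _ ≤ ∑ a ∈ S, (∑ n ∈ T, GE F g h a n) ^ (2 * m) := sum_le_sum fun a ha => (mem_filter.1 ha).2.le
      _ ≤ _ := sum_le_sum_of_subset_of_nonneg (filter_subset _ _) fun a _ _ => (even_two_mul m).pow_nonneg _
  rw [mul_div_assoc', le_div_iff₀ hR]
  exact h3.trans (mul_le_mul_of_nonneg_left h2 hQpos.le)

/-- all shifts, real factors -/
theorem cls_real (F : ℤ → ℝ) (hF : WinB F) (hFb : ∀ v, |F v| ≤ 1) (d A B m k : ℕ) (hm : 1 ≤ m) (hmk : m * (k + 1) ≤ d)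
    (C0 : ℝ) (hC0 : 1 ≤ C0) (ε : ℝ) (hε : 0 < ε) : ∃ η : ℝ, 0 < η ∧ ∃ H0 : ℕ, ∀ H : ℕ, H0 ≤ H →
    ∀ g : Fin k → ℤ → ℤ → ℝ, (∀ j n v, |g j n v| ≤ 1) →
    ∀ (𝒢 : Set (Set ℤ)) (Q : Set ℕ), (∀ q ∈ Q, ∀ r y : ℕ, 1 ≤ y → ((tr 𝒢 (prog q r y)).card : ℝ) ≤ C0 * (y : ℝ) ^ B) →
    ∃ Bad ⊆ QQ d H, (Bad.card : ℝ) ≤ (QQ d H).card / Real.log H ^ η ∧
    ∀ a ∈ QQ d H, a ∉ Bad → ∀ h : Fin (k + 1) → ℤ, (∀ j, 0 ≤ h j ∧ (h j : ℝ) ≤ Real.log H ^ η) →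
    (∀ j : Fin k, h j.succ ≠ h 0) → ∀ S ∈ 𝒢, ∀ q ∈ Q, ∀ r N : ℕ, 1 ≤ q → 1 ≤ N → ((r + q * N : ℕ) : ℝ) ≤ Real.log H ^ A →
    (∑ u ∈ Icc 1 N, cut S (GE F g h) a ((r + q * u : ℕ) : ℤ)) ^ (2 * m) ≤
      (q : ℝ) * ((r + q * N : ℕ) : ℝ) * (N : ℝ) ^ (m + B - 1) * Real.log H ^ ε := by
  classical
  have hk0 : (0 : ℝ) < (k : ℝ) + 1 := by positivity
  set η : ℝ := min (ε / (32 * (k + 1))) 1 with hη
  have hη0 : 0 < η := by rw [hη]; positivity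
  have hη1 : η ≤ ε / (32 * (k + 1)) := min_le_left _ _
  have hη2 : η ≤ 1 := min_le_right _ _
  have hηε : η ≤ ε / 16 := by
    refine hη1.trans ?_
    rw [div_le_div_iff₀ (by positivity) (by norm_num)]
    have : (0 : ℝ) ≤ k := Nat.cast_nonneg _
    nlinarith
  obtain ⟨C, hC, H2, h2⟩ := event_T F hF hFb d (A + 1) m k hmk hm
  obtain ⟨H1, h1⟩ := all_segC m A B hm C hC C0 hC0 ε hε
  obtain ⟨H3, h3⟩ := eventually_atTop.1 (ev_rpow η hη0 2)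
  obtain ⟨H4, h4⟩ := eventually_atTop.1 (ev_log 2)
  refine ⟨η, hη0, max (max H1 H2) (max H3 H4), fun H hH g hg 𝒢 Q hQc => ?_⟩
  have a1 := h1 H (((le_max_left _ _).trans (le_max_left _ _)).trans hH)
  have a2 := h2 H (((le_max_right _ _).trans (le_max_left _ _)).trans hH) g hg
  have a3 := h3 H (((le_max_left _ _).trans (le_max_right _ _)).trans hH)
  have a4 := h4 H (((le_max_right _ _).trans (le_max_right _ _)).trans hH)
  set L := Real.log H with hL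
  have hL0 : 0 < L := by linarith
  have hL1 : 1 ≤ L := by linarith
  set Y := ⌊L ^ η⌋₊ with hY
  have hYr : (Y : ℝ) ≤ L ^ η := Nat.floor_le (by positivity)
  set 𝒥 : Finset (Fin (k + 1) → ℤ) := (Fintype.piFinset (fun _ : Fin (k + 1) => Icc (0 : ℤ) Y)).filter
    (fun h => ∀ j : Fin k, h j.succ ≠ h 0) with h𝒥
  have hJ𝒥 : ∀ h : Fin (k + 1) → ℤ, (∀ j, 0 ≤ h j ∧ (h j : ℝ) ≤ L ^ η) → (∀ j : Fin k, h j.succ ≠ h 0) → h ∈ 𝒥 := by
    intro h hh hne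
    rw [h𝒥, mem_filter, Fintype.mem_piFinset]
    refine ⟨fun j => ?_, hne⟩
    obtain ⟨q1, q2⟩ := hh j
    rw [mem_Icc]
    refine ⟨q1, ?_⟩
    have q3 : ((h j).toNat : ℝ) ≤ L ^ η := by
      have : (((h j).toNat : ℤ) : ℝ) = (h j : ℝ) := by exact_mod_cast congrArg (Int.cast : ℤ → ℝ) (Int.toNat_of_nonneg q1)
      have e : ((h j).toNat : ℝ) = (((h j).toNat : ℤ) : ℝ) := by push_cast; rfl
      rw [e, this]
      exact q2
    have q4 : (h j).toNat ≤ Y := Nat.le_floor q3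
    omega
  have h𝒥b : ∀ h ∈ 𝒥, (∀ j : Fin k, h j.succ ≠ h 0) ∧ ∀ j, |(h j : ℝ)| ≤ L ^ (A + 1) := by
    intro h hh
    rw [h𝒥, mem_filter, Fintype.mem_piFinset] at hh
    refine ⟨hh.2, fun j => ?_⟩
    have q1 := mem_Icc.1 (hh.1 j)
    have q2 : (0 : ℝ) ≤ h j := by exact_mod_cast q1.1
    have q3 : (h j : ℝ) ≤ Y := by exact_mod_cast q1.2
    rw [abs_of_nonneg q2]
    calc (h j : ℝ) ≤ L ^ η := q3.trans hYr
      _ ≤ L ^ (1 : ℝ) := Real.rpow_le_rpow_of_exponent_le hL1 hη2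
      _ = L := Real.rpow_one L
      _ = L ^ 1 := (pow_one L).symm
      _ ≤ L ^ (A + 1) := pow_le_pow_right₀ hL1 (by omega)
  have hex : ∀ h ∈ 𝒥, ∃ Bad ⊆ QQ d H, (Bad.card : ℝ) ≤ (QQ d H).card / L ^ (ε / 8) ∧
      ∀ a ∈ QQ d H, a ∉ Bad → ∀ S ∈ 𝒢, ∀ q ∈ Q, ∀ r N : ℕ, 1 ≤ q → 1 ≤ N → ((r + q * N : ℕ) : ℝ) ≤ L ^ A →
      (∑ u ∈ Icc 1 N, cut S (GE F g h) a ((r + q * u : ℕ) : ℤ)) ^ (2 * m) ≤
        (q : ℝ) * ((r + q * N : ℕ) : ℝ) * (N : ℝ) ^ (m + B - 1) * L ^ ε := fun h hh =>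
    a1 d (GE F g h) (a2 h (h𝒥b h hh).1 (h𝒥b h hh).2) 𝒢 Q hQc
  choose! Bd hBd1 hBd2 hBd3 using hex
  refine ⟨𝒥.biUnion Bd, ?_, ?_, ?_⟩
  · intro a ha
    obtain ⟨J, hJ, haJ⟩ := mem_biUnion.1 ha
    exact hBd1 J hJ haJ
  · refine (card_bU 𝒥 Bd (fun _ => (QQ d H).card / L ^ (ε / 8)) (fun J hJ => hBd2 J hJ)).trans ?_
    rw [sum_const, nsmul_eq_mul]
    have hc : (𝒥.card : ℝ) ≤ L ^ (ε / 16) := by
      have q1 : 𝒥.card ≤ (Y + 1) ^ (k + 1) := by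
        refine (card_filter_le _ _).trans ?_
        rw [Fintype.card_piFinset_const, Int.card_Icc]
        have : ((Y : ℤ) + 1 - 0).toNat = Y + 1 := by omega
        rw [this]
      have q2 : (𝒥.card : ℝ) ≤ ((Y : ℝ) + 1) ^ (k + 1) := by exact_mod_cast q1
      refine q2.trans ?_
      have q3 : (Y : ℝ) + 1 ≤ (L ^ η) ^ 2 := by nlinarith
      calc ((Y : ℝ) + 1) ^ (k + 1) ≤ ((L ^ η) ^ 2) ^ (k + 1) := pow_le_pow_left₀ (by positivity) q3 _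
        _ = L ^ (η * (2 * (k + 1))) := by
            rw [← pow_mul, ← Real.rpow_natCast, ← Real.rpow_mul hL0.le]
            congr 1
            push_cast
            ring
        _ ≤ L ^ (ε / 16) := by
            apply Real.rpow_le_rpow_of_exponent_le hL1
            calc η * (2 * (k + 1)) ≤ ε / (32 * (k + 1)) * (2 * (k + 1)) := mul_le_mul_of_nonneg_right hη1 (by positivity)
              _ = ε / 16 := by field_simp; ring
    have hQc0 : (0 : ℝ) ≤ (QQ d H).card := Nat.cast_nonneg _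
    have e1 : L ^ (ε / 8) = L ^ (ε / 16) * L ^ (ε / 16) := by
      rw [← Real.rpow_add hL0]; congr 1; ring
    calc (𝒥.card : ℝ) * ((QQ d H).card / L ^ (ε / 8)) ≤ L ^ (ε / 16) * ((QQ d H).card / L ^ (ε / 8)) :=
          mul_le_mul_of_nonneg_right hc (by positivity)
      _ = (QQ d H).card / L ^ (ε / 16) := by
          rw [e1]
          have : L ^ (ε / 16) ≠ 0 := by positivity
          field_simp
      _ ≤ (QQ d H).card / L ^ η := by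
          apply div_le_div_of_nonneg_left hQc0 (by positivity)
          exact Real.rpow_le_rpow_of_exponent_le hL1 hηε
  · intro a ha hbad h hh hne S hS q hqQ r N hq hN hX
    exact hBd3 h (hJ𝒥 h hh hne) a ha (fun h' => hbad (mem_biUnion.2 ⟨h, hJ𝒥 h hh hne, h'⟩)) S hS q hqQ r N hq hN hX

end Pool.Agent.U708.VC
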