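import Mathlib
import Pool.Agent.U708.VC.Real

/-!
Classes of sets with few traces on progressions: functions whose superlevel sets are in the class, complex factors.
-/

set_option autoImplicit false

namespace Pool.Agent.U708.VC

open Finset Filter
open Pool.Agent.H807R2.Dav
open Pool.Agent.TP975.RP
open Pool.Agent.TP975.LR

/-- layer cake -/
lemma layer {ι : Type} (I : Finset ι) (x ψ : ι → ℝ) (ρ : ℝ) (h0 : ∀ u ∈ I, 0 ≤ ψ u ∧ ψ u ≤ 1)
    (h : ∀ t : ℝ, 0 ≤ t → t < 1 → |∑ u ∈ I, (if t < ψ u then x u else 0)| ≤ ρ) : |∑ u ∈ I, ψ u * x u| ≤ ρ := by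
  classical
  set Z : ℝ := ∑ u ∈ I, |x u| with hZ
  have hZ0 : 0 ≤ Z := sum_nonneg fun _ _ => abs_nonneg _
  refine le_of_forall_pos_le_add fun ε hε => ?_
  obtain ⟨M, hM⟩ := exists_nat_gt (Z / ε)
  have hM0 : (0 : ℝ) < M := lt_of_le_of_lt (by positivity) hM
  have hM1 : 0 < M := by exact_mod_cast hM0
  have hMZ : Z / M ≤ ε := by
    rw [div_le_iff₀ hM0]
    rw [div_lt_iff₀ hε] at hM
    linarith
  -- the approximation of `ψ`
  have happ : ∀ u ∈ I, |ψ u - (∑ i ∈ range M, (if ((i : ℝ) / M) < ψ u then (1 : ℝ) else 0)) / M| ≤ 1 / M := by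
    intro u hu
    obtain ⟨p0, p1⟩ := h0 u hu
    have h1 : (range M).filter (fun i : ℕ => ((i : ℝ) / M) < ψ u) = range ⌈(M : ℝ) * ψ u⌉₊ := by
      ext i
      rw [mem_filter, mem_range, mem_range, Nat.lt_ceil, div_lt_iff₀ hM0]
      constructor
      · rintro ⟨_, h⟩; linarith
      · intro h
        refine ⟨?_, by linarith⟩
        have h2 : (i : ℝ) < M := lt_of_lt_of_le h (by nlinarith)
        exact_mod_cast h2
    have h2 : ∑ i ∈ range M, (if ((i : ℝ) / M) < ψ u then (1 : ℝ) else 0) = ⌈(M : ℝ) * ψ u⌉₊ := by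
      rw [← sum_filter, h1, sum_const, card_range, nsmul_eq_mul, mul_one]
    rw [h2]
    have h3 : (M : ℝ) * ψ u ≤ ⌈(M : ℝ) * ψ u⌉₊ := Nat.le_ceil _
    have h4 : (⌈(M : ℝ) * ψ u⌉₊ : ℝ) < M * ψ u + 1 := Nat.ceil_lt_add_one (by positivity)
    rw [abs_sub_comm, abs_of_nonneg (by rw [sub_nonneg, le_div_iff₀ hM0]; linarith)]
    rw [sub_le_iff_le_add, div_le_iff₀ hM0]
    have e : (1 / (M : ℝ) + ψ u) * M = 1 + M * ψ u := by field_simp
    rw [e]
    linarith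
  have hsplit : ∑ u ∈ I, ψ u * x u = ∑ u ∈ I, (ψ u - (∑ i ∈ range M, (if ((i : ℝ) / M) < ψ u then (1 : ℝ) else 0)) / M) * x u +
      (∑ i ∈ range M, ∑ u ∈ I, (if ((i : ℝ) / M) < ψ u then x u else 0)) / M := by
    rw [sum_comm, sum_div, ← sum_add_distrib]
    refine sum_congr rfl fun u _ => ?_
    have e : ∑ i ∈ range M, (if ((i : ℝ) / M) < ψ u then x u else 0) =
        (∑ i ∈ range M, (if ((i : ℝ) / M) < ψ u then (1 : ℝ) else 0)) * x u := by
      rw [sum_mul]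
      refine sum_congr rfl fun i _ => ?_
      split_ifs <;> simp
    rw [e]
    ring
  rw [hsplit]
  refine (abs_add_le _ _).trans ?_
  have hA : |∑ u ∈ I, (ψ u - (∑ i ∈ range M, (if ((i : ℝ) / M) < ψ u then (1 : ℝ) else 0)) / M) * x u| ≤ ε := by
    refine (abs_sum_le_sum_abs _ _).trans (le_trans ?_ hMZ)
    rw [hZ, sum_div]
    refine sum_le_sum fun u hu => ?_
    rw [abs_mul]
    calc _ ≤ 1 / (M : ℝ) * |x u| := mul_le_mul_of_nonneg_right (happ u hu) (abs_nonneg _)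
      _ = _ := by ring
  have hB : |(∑ i ∈ range M, ∑ u ∈ I, (if ((i : ℝ) / M) < ψ u then x u else 0)) / M| ≤ ρ := by
    rw [abs_div, abs_of_pos hM0, div_le_iff₀ hM0]
    refine (abs_sum_le_sum_abs _ _).trans ?_
    have h5 : ∀ i ∈ range M, |∑ u ∈ I, (if ((i : ℝ) / M) < ψ u then x u else 0)| ≤ ρ := by
      intro i hi
      rw [mem_range] at hi
      refine h _ (by positivity) ?_
      rw [div_lt_one hM0]
      exact_mod_cast hi
    refine (sum_le_sum h5).trans ?_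
    rw [sum_const, card_range, nsmul_eq_mul, mul_comm]
  linarith

/-- the weighted sum with complex factors -/
noncomputable def SX {d k : ℕ} (F : ℤ → ℝ) (g : Fin k → ℤ → ℤ → ℂ) (h : Fin (k + 1) → ℤ) (ψ : ℤ → ℝ) (q r N : ℕ)
    (a : Fin (d + 1) → ℤ) : ℂ :=
  ∑ u ∈ Icc 1 N, (ψ ((r + q * u : ℕ) : ℤ) : ℂ) * ((F (ev a (((r + q * u : ℕ) : ℤ) + h 0)) : ℂ) *
    ∏ j, g j ((r + q * u : ℕ) : ℤ) (ev a (((r + q * u : ℕ) : ℤ) + h j.succ)))

/-- all shifts, complex factors, functions whose superlevel sets are in the class -/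
theorem cls_complex (F : ℤ → ℝ) (hF : WinB F) (hFb : ∀ v, |F v| ≤ 1) (d A B m k : ℕ) (hm : 1 ≤ m) (hmk : m * (k + 1) ≤ d)
    (C0 : ℝ) (hC0 : 1 ≤ C0) (ε : ℝ) (hε : 0 < ε) : ∃ η : ℝ, 0 < η ∧ ∃ H0 : ℕ, ∀ H : ℕ, H0 ≤ H →
    ∀ g : Fin k → ℤ → ℤ → ℂ, (∀ j n v, ‖g j n v‖ ≤ 1) →
    ∀ (𝒢 : Set (Set ℤ)) (Q : Set ℕ), (∀ q ∈ Q, ∀ r y : ℕ, 1 ≤ y → ((tr 𝒢 (prog q r y)).card : ℝ) ≤ C0 * (y : ℝ) ^ B) →
    ∃ Bad ⊆ QQ d H, (Bad.card : ℝ) ≤ (QQ d H).card / Real.log H ^ η ∧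
    ∀ a ∈ QQ d H, a ∉ Bad → ∀ h : Fin (k + 1) → ℤ, (∀ j, 0 ≤ h j ∧ (h j : ℝ) ≤ Real.log H ^ η) →
    (∀ j : Fin k, h j.succ ≠ h 0) → ∀ ψ : ℤ → ℝ, (∀ n, 0 ≤ ψ n ∧ ψ n ≤ 1) →
    (∀ t : ℝ, 0 ≤ t → t < 1 → {n : ℤ | t < ψ n} ∈ 𝒢) →
    ∀ q ∈ Q, ∀ r N : ℕ, 1 ≤ q → 1 ≤ N → ((r + q * N : ℕ) : ℝ) ≤ Real.log H ^ A →
    ‖SX F g h ψ q r N a‖ ^ (2 * m) ≤
      (q : ℝ) * ((r + q * N : ℕ) : ℝ) * (N : ℝ) ^ (m + B - 1) * Real.log H ^ ε := by
  classical
  obtain ⟨η', hη', H1, h1⟩ := cls_real F hF hFb d A B m k hm hmk C0 hC0 (ε / 2) (by positivity)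
  obtain ⟨H2, h2⟩ := eventually_atTop.1 (ev_rpow (η' / 2) (by positivity) (2 ^ k))
  obtain ⟨H3, h3⟩ := eventually_atTop.1 (ev_rpow (ε / 2) (by positivity) ((2 ^ k) ^ (2 * m)))
  obtain ⟨H4, h4⟩ := eventually_atTop.1 (ev_log 2)
  refine ⟨η' / 2, by positivity, max (max H1 H2) (max H3 H4), fun H hH g hg 𝒢 Q hQc => ?_⟩
  have a1 := h1 H (((le_max_left _ _).trans (le_max_left _ _)).trans hH)
  have a2 := h2 H (((le_max_right _ _).trans (le_max_left _ _)).trans hH)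
  have a3 := h3 H (((le_max_left _ _).trans (le_max_right _ _)).trans hH)
  have a4 := h4 H (((le_max_right _ _).trans (le_max_right _ _)).trans hH)
  set L := Real.log H with hL
  have hL0 : 0 < L := by linarith
  have hL1 : 1 ≤ L := by linarith
  have hgr : ∀ w : Fin k → Bool, ∀ j n v, |gr g w j n v| ≤ 1 := by
    intro w j n v
    unfold gr
    split_ifs
    · exact (Complex.abs_im_le_norm _).trans (hg j n v)
    · exact (Complex.abs_re_le_norm _).trans (hg j n v)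
  have hex : ∀ w : Fin k → Bool, _ := fun w => a1 (gr g w) (hgr w) 𝒢 Q hQc
  choose Bd hBd1 hBd2 hBd3 using hex
  refine ⟨(univ : Finset (Fin k → Bool)).biUnion Bd, ?_, ?_, ?_⟩
  · intro a ha
    obtain ⟨w, _, haw⟩ := mem_biUnion.1 ha
    exact hBd1 w haw
  · refine (card_bU univ Bd (fun _ => (QQ d H).card / L ^ η') (fun w _ => hBd2 w)).trans ?_
    rw [sum_const, card_univ, Fintype.card_fun, Fintype.card_bool, Fintype.card_fin, nsmul_eq_mul]
    have hQc0 : (0 : ℝ) ≤ (QQ d H).card := Nat.cast_nonneg _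
    have e1 : L ^ η' = L ^ (η' / 2) * L ^ (η' / 2) := by
      rw [← Real.rpow_add hL0]; congr 1; ring
    push_cast
    calc (2 : ℝ) ^ k * ((QQ d H).card / L ^ η') ≤ L ^ (η' / 2) * ((QQ d H).card / L ^ η') :=
          mul_le_mul_of_nonneg_right a2 (by positivity)
      _ = (QQ d H).card / L ^ (η' / 2) := by
          rw [e1]
          have : L ^ (η' / 2) ≠ 0 := by positivity
          field_simp
  · intro a ha hbad h hh hne ψ hψ hψ2 q hqQ r N hq hN hX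
    set B' : ℝ := (q : ℝ) * ((r + q * N : ℕ) : ℝ) * (N : ℝ) ^ (m + B - 1) * L ^ (ε / 2) with hB
    have hB0 : 0 ≤ B' := by positivity
    set ρ : ℝ := B' ^ (((2 * m : ℕ) : ℝ)⁻¹) with hρ
    have hρ0 : 0 ≤ ρ := by positivity
    have hρd : ρ ^ (2 * m) = B' := Real.rpow_inv_natCast_pow hB0 (by omega)
    have hh' : ∀ j, 0 ≤ h j ∧ (h j : ℝ) ≤ L ^ η' := fun j =>
      ⟨(hh j).1, (hh j).2.trans (Real.rpow_le_rpow_of_exponent_le hL1 (by linarith))⟩
    have hw : ∀ w : Fin k → Bool, |∑ u ∈ Icc 1 N, ψ ((r + q * u : ℕ) : ℤ) * GE F (gr g w) h a ((r + q * u : ℕ) : ℤ)| ≤ ρ := by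
      intro w
      refine layer (Icc 1 N) _ (fun u => ψ ((r + q * u : ℕ) : ℤ)) ρ (fun u _ => hψ _) fun t ht0 ht1 => ?_
      have h5 := hBd3 w a ha (fun h' => hbad (mem_biUnion.2 ⟨w, mem_univ _, h'⟩)) h hh' hne _ (hψ2 t ht0 ht1) q hqQ r N hq hN hX
      have h5' : |∑ u ∈ Icc 1 N, cut {n : ℤ | t < ψ n} (GE F (gr g w) h) a ((r + q * u : ℕ) : ℤ)| ^ (2 * m) ≤ ρ ^ (2 * m) := by
        rw [(even_two_mul m).pow_abs, hρd]
        exact h5
      have h6 := (pow_le_pow_iff_left₀ (abs_nonneg _) hρ0 (by omega)).1 h5'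
      exact h6
    have hexp : SX F g h ψ q r N a = ∑ w : Fin k → Bool, (∏ j, (if w j then Complex.I else 1)) *
        ((∑ u ∈ Icc 1 N, ψ ((r + q * u : ℕ) : ℤ) * GE F (gr g w) h a ((r + q * u : ℕ) : ℤ) : ℝ) : ℂ) := by
      unfold SX
      have e2 : ∀ n : ℤ, ∏ j, g j n (ev a (n + h (Fin.succ j))) = ∑ w : Fin k → Bool,
          (∏ j, (if w j then Complex.I else 1)) * ∏ j, ((gr g w j n (ev a (n + h (Fin.succ j))) : ℝ) : ℂ) := by
        intro n
        have e3 : ∀ j : Fin k, g j n (ev a (n + h (Fin.succ j))) = ∑ b : Bool, (if b then Complex.I else 1) *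
            (((if b then (g j n (ev a (n + h (Fin.succ j)))).im else (g j n (ev a (n + h (Fin.succ j)))).re) : ℝ) : ℂ) := by
          intro j
          rw [Fintype.sum_bool]
          simp only [if_true, Bool.false_eq_true, if_false, one_mul]
          calc g j n (ev a (n + h (Fin.succ j))) = ((g j n (ev a (n + h (Fin.succ j)))).re : ℂ) +
              ((g j n (ev a (n + h (Fin.succ j)))).im : ℂ) * Complex.I := (Complex.re_add_im _).symm
            _ = _ := by ring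
        rw [prod_congr rfl fun j _ => e3 j, prod_univ_sum, Fintype.piFinset_univ]
        refine sum_congr rfl fun w _ => ?_
        rw [prod_mul_distrib]
        rfl
      have e4 : ∀ u ∈ Icc 1 N, (ψ ((r + q * u : ℕ) : ℤ) : ℂ) * ((F (ev a (((r + q * u : ℕ) : ℤ) + h 0)) : ℂ) *
          ∏ j, g j ((r + q * u : ℕ) : ℤ) (ev a (((r + q * u : ℕ) : ℤ) + h (Fin.succ j)))) =
          ∑ w : Fin k → Bool, (∏ j, (if w j then Complex.I else 1)) *
            ((ψ ((r + q * u : ℕ) : ℤ) * GE F (gr g w) h a ((r + q * u : ℕ) : ℤ) : ℝ) : ℂ) := by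
        intro u _
        rw [e2, mul_sum, mul_sum]
        refine sum_congr rfl fun w _ => ?_
        unfold GE
        rw [Complex.ofReal_mul, Complex.ofReal_mul, Complex.ofReal_prod]
        ring
      rw [sum_congr rfl e4, sum_comm]
      refine sum_congr rfl fun w _ => ?_
      rw [← mul_sum, Complex.ofReal_sum]
    have hnorm : ‖SX F g h ψ q r N a‖ ≤ 2 ^ k * ρ := by
      rw [hexp]
      refine (norm_sum_le _ _).trans ?_
      have h6 : ∀ w ∈ (univ : Finset (Fin k → Bool)), ‖(∏ j, (if w j then Complex.I else 1)) *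
          ((∑ u ∈ Icc 1 N, ψ ((r + q * u : ℕ) : ℤ) * GE F (gr g w) h a ((r + q * u : ℕ) : ℤ) : ℝ) : ℂ)‖ ≤ ρ := by
        intro w _
        rw [norm_mul, norm_prod, Complex.norm_real, Real.norm_eq_abs]
        have h7 : ∏ j, ‖(if w j then Complex.I else 1 : ℂ)‖ = 1 := by
          apply prod_eq_one
          intro j _
          split_ifs <;> simp
        rw [h7, one_mul]
        exact hw w
      refine (sum_le_sum h6).trans ?_
      rw [sum_const, card_univ, Fintype.card_fun, Fintype.card_bool, Fintype.card_fin, nsmul_eq_mul]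
      push_cast
      exact le_rfl
    calc ‖SX F g h ψ q r N a‖ ^ (2 * m) ≤ (2 ^ k * ρ) ^ (2 * m) := pow_le_pow_left₀ (norm_nonneg _) hnorm _
      _ = (2 ^ k) ^ (2 * m) * B' := by rw [mul_pow, hρd]
      _ ≤ L ^ (ε / 2) * B' := mul_le_mul_of_nonneg_right a3 hB0
      _ = (q : ℝ) * ((r + q * N : ℕ) : ℝ) * (N : ℝ) ^ (m + B - 1) * (L ^ (ε / 2) * L ^ (ε / 2)) := by rw [hB]; ring
      _ = _ := by rw [← Real.rpow_add hL0]; congr 2; ring

end Pool.Agent.U708.VC
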