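import Mathlib
import Pool.Agent.U708.VC.Weight

/-!
Classes with few traces: Vapnik-Chervonenkis classes, and sequences with few words.
-/

set_option autoImplicit false

namespace Pool.Agent.U708.VC

open Finset

/-- no `v + 1` integers are shattered by the class -/
def NoShatter (𝒢 : Set (Set ℤ)) (v : ℕ) : Prop :=
  ∀ P : Finset ℤ, P.card = v + 1 → ∃ T ⊆ P, ∀ G ∈ 𝒢, ¬ ∀ n ∈ P, n ∈ T ↔ n ∈ G

lemma sum_choose_le (n v : ℕ) : ∑ i ∈ range (v + 1), n.choose i ≤ (n + 1) ^ v := by
  have h1 : (n + 1) ^ v = ∑ i ∈ range (v + 1), n ^ i * 1 ^ (v - i) * v.choose i := by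
    rw [add_pow]
    simp
  rw [h1]
  refine sum_le_sum fun i hi => ?_
  rw [mem_range] at hi
  rw [one_pow, mul_one]
  have h2 : n.choose i ≤ n ^ i := Nat.choose_le_pow n i
  have h3 : 1 ≤ v.choose i := Nat.choose_pos (by omega)
  calc n.choose i ≤ n ^ i := h2
    _ = n ^ i * 1 := (mul_one _).symm
    _ ≤ _ := Nat.mul_le_mul_left _ h3

/-- the lemma of Sauer and Shelah -/
lemma tr_card (𝒢 : Set (Set ℤ)) (v : ℕ) (h : NoShatter 𝒢 v) (P : Finset ℤ) : (tr 𝒢 P).card ≤ (P.card + 1) ^ v := by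
  classical
  refine (card_le_card_shatterer (tr 𝒢 P)).trans ?_
  have hsub : (tr 𝒢 P).shatterer ⊆ (range (v + 1)).biUnion (fun i => powersetCard i P) := by
    intro Q hQ
    rw [mem_shatterer] at hQ
    -- `Q` is a subset of `P`
    have hQP : Q ⊆ P := by
      obtain ⟨U, hU, hQU⟩ := hQ.exists_superset
      unfold tr at hU
      rw [mem_filter, mem_powerset] at hU
      exact hQU.trans hU.1
    have hcard : Q.card < v + 1 := by
      by_contra hcon
      push Not at hcon
      obtain ⟨Q', hQ', hQ'c⟩ := exists_subset_card_eq hcon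
      obtain ⟨T, hT, hno⟩ := h Q' hQ'c
      have hsh := hQ.mono_right hQ'
      obtain ⟨U, hU, hUT⟩ := hsh hT
      unfold tr at hU
      rw [mem_filter, mem_powerset] at hU
      obtain ⟨_, G, hG, hGU⟩ := hU
      refine hno G hG fun n hn => ?_
      rw [← hGU n (hQP (hQ' hn)), ← hUT, mem_inter]
      exact ⟨fun h => h.2, fun h => ⟨hn, h⟩⟩
    rw [mem_biUnion]
    exact ⟨Q.card, mem_range.2 hcard, mem_powersetCard.2 ⟨hQP, rfl⟩⟩
  refine (card_le_card hsub).trans (card_biUnion_le.trans ?_)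
  refine le_trans (le_of_eq ?_) (sum_choose_le P.card v)
  exact sum_congr rfl fun i _ => card_powersetCard i P

lemma vc_few (𝒢 : Set (Set ℤ)) (v : ℕ) (h : NoShatter 𝒢 v) (q r y : ℕ) (hy : 1 ≤ y) :
    ((tr 𝒢 (prog q r y)).card : ℝ) ≤ 2 ^ v * (y : ℝ) ^ v := by
  have h1 := tr_card 𝒢 v h (prog q r y)
  have h2 := prog_card q r y
  have h3 : (tr 𝒢 (prog q r y)).card ≤ (2 * y) ^ v := h1.trans (Nat.pow_le_pow_left (by omega) v)
  have h4 : ((tr 𝒢 (prog q r y)).card : ℝ) ≤ ((2 * y : ℕ) : ℝ) ^ v := by exact_mod_cast h3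
  refine h4.trans (le_of_eq ?_)
  push_cast
  rw [mul_pow]

/-- the words of length `N` of a set of sequences -/
def words {α : Type} (X : Set (ℤ → α)) (N : ℕ) : Set (Fin N → α) :=
  {w | ∃ x ∈ X, ∃ s : ℤ, ∀ i : Fin N, w i = x (s + (i : ℕ))}

/-- the sets of the places of the letters -/
def places {α : Type} (X : Set (ℤ → α)) : Set (Set ℤ) := {G | ∃ x ∈ X, ∃ b : α, G = {n | x n = b}}

lemma words_few {α : Type} [Fintype α] (X : Set (ℤ → α)) (r y : ℕ) :
    (tr (places X) (prog 1 r y)).card ≤ (words X y).ncard * Fintype.card α := by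
  classical
  have hfin : (words X y).Finite := Set.toFinite _
  set W : Finset (Fin y → α) := hfin.toFinset with hW
  have hWc : W.card = (words X y).ncard := (Set.ncard_eq_toFinset_card _ hfin).symm
  have hsub : tr (places X) (prog 1 r y) ⊆ (W ×ˢ (univ : Finset α)).image (fun p =>
      (prog 1 r y).filter (fun n => ∃ i : Fin y, n = (r : ℤ) + 1 + (i : ℕ) ∧ p.1 i = p.2)) := by
    intro T hT
    unfold tr at hT
    rw [mem_filter, mem_powerset] at hT
    obtain ⟨hTP, G, ⟨x, hx, b, rfl⟩, hG⟩ := hT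
    rw [mem_image]
    refine ⟨((fun i : Fin y => x ((r : ℤ) + 1 + (i : ℕ))), b), ?_, ?_⟩
    · rw [mem_product]
      refine ⟨?_, mem_univ _⟩
      rw [hW, Set.Finite.mem_toFinset]
      exact ⟨x, hx, (r : ℤ) + 1, fun i => rfl⟩
    · ext n
      rw [mem_filter]
      constructor
      · rintro ⟨hn, i, hi, hxi⟩
        rw [hG n hn, hi]
        exact hxi
      · intro hn
        have hnP := hTP hn
        refine ⟨hnP, ?_⟩
        have hxn : x n = b := (hG n hnP).1 hn
        unfold prog at hnP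
        obtain ⟨u, hu, hun⟩ := mem_image.1 hnP
        rw [mem_Icc] at hu
        refine ⟨⟨u - 1, by omega⟩, ?_, ?_⟩
        · show n = (r : ℤ) + 1 + ((u - 1 : ℕ) : ℤ)
          rw [← hun]
          push_cast
          have : ((u - 1 : ℕ) : ℤ) = (u : ℤ) - 1 := by omega
          rw [this]
          ring
        · have e : (r : ℤ) + 1 + ((u - 1 : ℕ) : ℤ) = n := by
            rw [← hun]
            push_cast
            have : ((u - 1 : ℕ) : ℤ) = (u : ℤ) - 1 := by omega
            rw [this]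
            ring
          show x ((r : ℤ) + 1 + ((u - 1 : ℕ) : ℤ)) = b
          rw [e]
          exact hxn
  refine (card_le_card hsub).trans (card_image_le.trans ?_)
  rw [card_product, hWc, card_univ]

end Pool.Agent.U708.VC
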