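import Mathlib
import Pool.Agent.U708.VC.Traces

/-!
Sequences with few words.
-/

set_option autoImplicit false

namespace Pool.Agent.U708.VC

open Finset Filter
open Pool.Agent.H807R2.Dav
open Pool.Agent.TP975.RP
open Pool.Agent.TP975.LR

/-- the sum with the letters of a sequence -/
noncomputable def SY {d k : ℕ} {α : Type} (F : ℤ → ℝ) (g : Fin k → ℤ → ℤ → ℂ) (h : Fin (k + 1) → ℤ) (φ : α → ℂ) (x : ℤ → α)
    (r N : ℕ) (a : Fin (d + 1) → ℤ) : ℂ :=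
  ∑ u ∈ Icc 1 N, φ (x ((r + u : ℕ) : ℤ)) * ((F (ev a (((r + u : ℕ) : ℤ) + h 0)) : ℂ) *
    ∏ j, g j ((r + u : ℕ) : ℤ) (ev a (((r + u : ℕ) : ℤ) + h j.succ)))

theorem few_words (F : ℤ → ℝ) (hF : WinB F) (hFb : ∀ v, |F v| ≤ 1) (d A B m k : ℕ) (hm : 1 ≤ m) (hmk : m * (k + 1) ≤ d)
    (b : ℕ) (C0 : ℝ) (hC0 : 1 ≤ C0) (ε : ℝ) (hε : 0 < ε) : ∃ η : ℝ, 0 < η ∧ ∃ H0 : ℕ, ∀ H : ℕ, H0 ≤ H →
    ∀ g : Fin k → ℤ → ℤ → ℂ, (∀ j n v, ‖g j n v‖ ≤ 1) →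
    ∀ X : Set (ℤ → Fin b), (∀ N : ℕ, 1 ≤ N → ((words X N).ncard : ℝ) ≤ C0 * (N : ℝ) ^ B) →
    ∃ Bad ⊆ QQ d H, (Bad.card : ℝ) ≤ (QQ d H).card / Real.log H ^ η ∧
    ∀ a ∈ QQ d H, a ∉ Bad → ∀ h : Fin (k + 1) → ℤ, (∀ j, 0 ≤ h j ∧ (h j : ℝ) ≤ Real.log H ^ η) →
    (∀ j : Fin k, h j.succ ≠ h 0) → ∀ x ∈ X, ∀ φ : Fin b → ℂ, (∀ c, ‖φ c‖ ≤ 1) →
    ∀ r N : ℕ, 1 ≤ N → ((r + N : ℕ) : ℝ) ≤ Real.log H ^ A →
    ‖SY F g h φ x r N a‖ ^ (2 * m) ≤ ((r + N : ℕ) : ℝ) * (N : ℝ) ^ (m + B - 1) * Real.log H ^ ε := by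
  classical
  have hb0 : (0 : ℝ) ≤ b := Nat.cast_nonneg _
  obtain ⟨η, hη, H1, h1⟩ := cls_complex F hF hFb d A B m k hm hmk (C0 * (b + 1)) (by nlinarith) (ε / 2) (by positivity)
  obtain ⟨H2, h2⟩ := eventually_atTop.1 (ev_rpow (ε / 2) (by positivity) ((b : ℝ) ^ (2 * m)))
  obtain ⟨H3, h3⟩ := eventually_atTop.1 (ev_log 2)
  refine ⟨η, hη, max H1 (max H2 H3), fun H hH g hg X hX => ?_⟩
  have a1 := h1 H ((le_max_left _ _).trans hH)
  have a2 := h2 H (((le_max_left _ _).trans (le_max_right _ _)).trans hH)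
  have a3 := h3 H (((le_max_right _ _).trans (le_max_right _ _)).trans hH)
  set L := Real.log H with hL
  have hL0 : 0 < L := by linarith
  obtain ⟨Bad, hB1, hB2, hB3⟩ := a1 g hg (places X) {1} (by
    intro q hq r y hy
    rw [Set.mem_singleton_iff] at hq
    subst hq
    have q1 := words_few X r y
    have q2 := hX y hy
    have q3 : ((tr (places X) (prog 1 r y)).card : ℝ) ≤ ((words X y).ncard : ℝ) * b := by
      rw [Fintype.card_fin] at q1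
      exact_mod_cast q1
    refine q3.trans ?_
    have q4 : (0 : ℝ) ≤ (y : ℝ) ^ B := by positivity
    calc ((words X y).ncard : ℝ) * b ≤ (C0 * (y : ℝ) ^ B) * b := mul_le_mul_of_nonneg_right q2 hb0
      _ ≤ (C0 * (y : ℝ) ^ B) * (b + 1) := mul_le_mul_of_nonneg_left (by linarith) (by positivity)
      _ = _ := by ring)
  refine ⟨Bad, hB1, hB2, fun a ha hbad h hh hne x hx φ hφ r N hN hrN => ?_⟩
  set B' : ℝ := ((r + N : ℕ) : ℝ) * (N : ℝ) ^ (m + B - 1) * L ^ (ε / 2) with hB'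
  have hB0 : 0 ≤ B' := by positivity
  set ρ : ℝ := B' ^ (((2 * m : ℕ) : ℝ)⁻¹) with hρ
  have hρ0 : 0 ≤ ρ := by positivity
  have hρd : ρ ^ (2 * m) = B' := Real.rpow_inv_natCast_pow hB0 (by omega)
  set ψ : Fin b → ℤ → ℝ := fun c n => if x n = c then 1 else 0 with hψ
  have hone : ∀ c : Fin b, ‖SX F g h (ψ c) 1 r N a‖ ≤ ρ := by
    intro c
    have h5 := hB3 a ha hbad h hh hne (ψ c) (fun n => by rw [hψ]; simp only; split_ifs <;> norm_num) (fun t ht0 ht1 => by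
      refine ⟨x, hx, c, ?_⟩
      ext n
      rw [Set.mem_ofPred_eq, Set.mem_ofPred_eq, hψ]
      simp only
      constructor
      · intro h
        by_contra hcon
        rw [if_neg hcon] at h
        linarith
      · intro h
        rw [if_pos h]
        exact ht1) 1 rfl r N le_rfl hN (by rw [one_mul]; exact hrN)
    simp only [one_mul, Nat.cast_one] at h5
    rw [← hB', ← hρd] at h5
    exact (pow_le_pow_iff_left₀ (norm_nonneg _) hρ0 (by omega)).1 h5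
  have hexp : SY F g h φ x r N a = ∑ c : Fin b, φ c * SX F g h (ψ c) 1 r N a := by
    unfold SY SX
    simp only [mul_sum, one_mul]
    rw [sum_comm]
    refine sum_congr rfl fun u _ => ?_
    have e : ∀ c : Fin b, φ c * (((ψ c ((r + u : ℕ) : ℤ) : ℝ) : ℂ) * ((F (ev a (((r + u : ℕ) : ℤ) + h 0)) : ℂ) *
        ∏ j, g j ((r + u : ℕ) : ℤ) (ev a (((r + u : ℕ) : ℤ) + h (Fin.succ j))))) =
        if x ((r + u : ℕ) : ℤ) = c then φ c * ((F (ev a (((r + u : ℕ) : ℤ) + h 0)) : ℂ) *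
        ∏ j, g j ((r + u : ℕ) : ℤ) (ev a (((r + u : ℕ) : ℤ) + h (Fin.succ j)))) else 0 := by
      intro c
      rw [hψ]
      simp only
      split_ifs <;> simp
    rw [sum_congr rfl fun c _ => e c, sum_ite_eq univ (x ((r + u : ℕ) : ℤ)), if_pos (mem_univ _)]
  have hnorm : ‖SY F g h φ x r N a‖ ≤ b * ρ := by
    rw [hexp]
    refine (norm_sum_le _ _).trans ?_
    have h6 : ∀ c ∈ (univ : Finset (Fin b)), ‖φ c * SX F g h (ψ c) 1 r N a‖ ≤ ρ := by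
      intro c _
      rw [norm_mul]
      calc ‖φ c‖ * ‖SX F g h (ψ c) 1 r N a‖ ≤ 1 * ρ := mul_le_mul (hφ c) (hone c) (norm_nonneg _) zero_le_one
        _ = ρ := one_mul ρ
    refine (sum_le_sum h6).trans ?_
    rw [sum_const, card_univ, Fintype.card_fin, nsmul_eq_mul]
  calc ‖SY F g h φ x r N a‖ ^ (2 * m) ≤ (b * ρ) ^ (2 * m) := pow_le_pow_left₀ (norm_nonneg _) hnorm _
    _ = (b : ℝ) ^ (2 * m) * B' := by rw [mul_pow, hρd]
    _ ≤ L ^ (ε / 2) * B' := mul_le_mul_of_nonneg_right a2 hB0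
    _ = ((r + N : ℕ) : ℝ) * (N : ℝ) ^ (m + B - 1) * (L ^ (ε / 2) * L ^ (ε / 2)) := by rw [hB']; ring
    _ = _ := by rw [← Real.rpow_add hL0]; congr 2; ring

end Pool.Agent.U708.VC
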